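import Mathlib
import Pool.Agent.Results.MP_309968_ag.SexticDistance
import Pool.Agent.V5helper94.AC.Rnd

set_option autoImplicit false

/-!
# Random nef rays on very general blow-ups of the plane

Let `X 0, X 1, …` be nonnegative random variables, pairwise independent and identically distributed,
with `P (X ≥ 1) > 0`. Almost surely we have for all sufficiently large `n` and all `n`-tuples of very
general points of the complex plane (outside countably many hypersurfaces, which depend only on `n`):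

1. If `E X ^ p` is finite, `p ≥ 3`: the class `√(∑ w i ^ 2) H - ∑ w i E i`, `w i = ⌊a X i⌋`, of
   self-intersection zero, is nonnegative on the closed cone of curves, for ALL real numbers `a` with
   `1 ≤ a ≤ C n ^ (1 - 3 / p)`. For bounded `X` this holds for all `a ≤ κ n`.
2. If `E X ^ p` is finite, `p ≥ 2`: all classes `c H - ∑ X i E i` with `c ≥ 0` and self-intersection
   number at least `ε n ^ (6 / p - 2)` are nonnegative on the closed cone of curves; for bounded `X`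
   all classes with self-intersection number at least `1 / (κ n ^ 2)`.

3. If `√(∑ x i ^ 2) H - ∑ x i E i` is nonnegative on the closed cone of curves, then
   `∑ x i m i ≤ √(∑ x i ^ 2) d` for all irreducible plane curves of degree `d` with the multiplicities
   `m i` at the points, and `∑ m i ^ 2 ≤ d ^ 2` for those whose multiplicities are proportional to `x`.

So for large `n` the closed cone of curves is as predicted in almost all directions: for example, if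
the coefficients are independent and identically distributed natural numbers with a finite third
moment, the class of self-intersection zero is nef (`p = 3`, `a = 1`).
-/

namespace Pool.Agent.Results.MP_3c72fe_ag.RandomRays

open MeasureTheory ProbabilityTheory Filter
open Pool.Agent.Results.MP_309968_ag.BoundaryRays (MultGE curveClasses curvCone)

/-- The class `c H - ∑ x i E i` is nonnegative on the closed cone of curves. -/
def Nef {n : ℕ} (P : Fin n → Fin 2 → ℂ) (c : ℝ) (x : Fin n → ℝ) : Prop :=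
  ∀ z ∈ curvCone P, 0 ≤ c * z.1 - ∑ i, x i * z.2 i

/-- The points `P` are outside the hypersurfaces `f n k = 0`, for all `k`. -/
def VeryGeneral (f : ∀ n : ℕ, ℕ → MvPolynomial (Fin n × Fin 2) ℂ) {n : ℕ}
    (P : Fin n → Fin 2 → ℂ) : Prop :=
  ∀ k, MvPolynomial.eval (fun q : Fin n × Fin 2 => P q.1 q.2) (f n k) ≠ 0

/-- The coefficients `⌊a x i⌋`, `i < n`. -/
noncomputable def mult (x : ℕ → ℝ) (a : ℝ) (n : ℕ) : Fin n → ℝ := fun i => (⌊a * x i⌋₊ : ℝ)

/-- The class of self-intersection zero with the coefficients `x` is nonnegative on the closed cone of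
curves. -/
def NefRay {n : ℕ} (P : Fin n → Fin 2 → ℂ) (x : Fin n → ℝ) : Prop := Nef P √(∑ i, x i ^ 2) x

theorem card_le {n : ℕ} {x : ℕ → ℝ} {a B : ℝ} (hB : 0 ≤ B) (h : ∀ i < n, a * x i ≤ B) :
    (((Finset.univ.image (mult x a n)).erase 0).card : ℝ) ≤ B := by
  classical
  have h1 : ((Finset.univ.image (mult x a n)).erase 0) ⊆
      (Finset.Icc 1 ⌊B⌋₊).image (fun k : ℕ => (k : ℝ)) := by
    intro t ht
    rw [Finset.mem_erase, Finset.mem_image] at ht
    obtain ⟨ht0, i, -, rfl⟩ := ht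
    refine Finset.mem_image.2 ⟨⌊a * x i⌋₊, Finset.mem_Icc.2 ⟨?_, ?_⟩, rfl⟩
    · unfold mult at ht0
      exact Nat.one_le_iff_ne_zero.2 fun h0 => ht0 (by rw [h0, Nat.cast_zero])
    · exact Nat.floor_le_floor (h i i.2)
  have h2 := (Finset.card_le_card h1).trans Finset.card_image_le
  rw [Nat.card_Icc, Nat.add_sub_cancel] at h2
  exact (by exact_mod_cast h2 : (((Finset.univ.image (mult x a n)).erase 0).card : ℝ) ≤
    (⌊B⌋₊ : ℝ)).trans (Nat.floor_le hB)

open Classical in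
theorem sq_ge {n : ℕ} {x : ℕ → ℝ} {a q : ℝ} (ha : 1 ≤ a)
    (h : q * n ≤ (((Finset.range n).filter fun i => 1 ≤ x i).card : ℝ)) :
    q * n * (a ^ 2 / 4) ≤ ∑ i, mult x a n i ^ 2 := by
  unfold mult
  rw [Fin.sum_univ_eq_sum_range (fun i => ((⌊a * x i⌋₊ : ℝ)) ^ 2) n]
  refine Pool.Agent.V5helper94.AC.sum_ge (x := x) (by positivity) (fun i => sq_nonneg _)
    (fun i hi => ?_) h
  have h2 : a ≤ a * x i := le_mul_of_one_le_right (by linarith) hi
  have h3 := Pool.Agent.V5helper94.AC.floor_half (ha.trans h2)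
  nlinarith

open Classical in
theorem sq_ge' {n : ℕ} {x : ℕ → ℝ} {q : ℝ}
    (h : q * n ≤ (((Finset.range n).filter fun i => 1 ≤ x i).card : ℝ)) :
    q * n ≤ ∑ i : Fin n, x i ^ 2 := by
  rw [Fin.sum_univ_eq_sum_range (fun i => x i ^ 2) n]
  have h1 := Pool.Agent.V5helper94.AC.sum_ge (x := x) (c := 1) (f := fun i => x i ^ 2) zero_le_one
    (fun i => sq_nonneg _) (fun i hi => by nlinarith) h
  linarith

/-- The very general points. -/
theorem exists_f : ∃ f : ∀ n : ℕ, ℕ → MvPolynomial (Fin n × Fin 2) ℂ, (∀ n k, f n k ≠ 0) ∧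
    (∀ (n : ℕ) (P : Fin n → Fin 2 → ℂ), VeryGeneral f P → ∀ (x : Fin n → ℝ) (c M : ℝ),
      (∀ i, 0 ≤ x i) → (∀ i, x i ≤ M) → ∑ i, x i ^ 2 = c ^ 2 → 12 * M ≤ c →
      (16 * (((Finset.univ.image x).erase 0).card : ℝ) + 8) * M ^ 2 ≤ c ^ 2 → Nef P c x) ∧
    ∀ (n : ℕ) (P : Fin n → Fin 2 → ℂ), 4 ≤ n → VeryGeneral f P → ∀ (x : Fin n → ℝ) (c M : ℝ),
      0 < M → (∀ i, 0 ≤ x i) → (∀ i, x i ≤ M) →
      (∀ i j k, i ≠ j → i ≠ k → j ≠ k → x i + x j + x k ≤ c) →
      24 * M ≤ c → 700 * M ^ 6 ≤ c ^ 4 * (c ^ 2 - ∑ i, x i ^ 2) → Nef P c x := by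
  classical
  choose f hf hf' using Pool.Agent.Results.MP_309968_ag.FewCoefficients.result
  have hs : ∀ n : ℕ, ∃ g : ℕ → MvPolynomial (Fin n × Fin 2) ℂ, (∀ k, g k ≠ 0) ∧
      ∀ P : Fin n → Fin 2 → ℂ, 4 ≤ n →
        (∀ k, MvPolynomial.eval (fun q : Fin n × Fin 2 => P q.1 q.2) (g k) ≠ 0) →
        ∀ (x : Fin n → ℝ) (c M : ℝ), 0 < M → (∀ i, 0 ≤ x i) → (∀ i, x i ≤ M) →
        (∀ i j k, i ≠ j → i ≠ k → j ≠ k → x i + x j + x k ≤ c) →
        24 * M ≤ c → 700 * M ^ 6 ≤ c ^ 4 * (c ^ 2 - ∑ i, x i ^ 2) → Nef P c x := by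
    intro n
    by_cases hn : 4 ≤ n
    · obtain ⟨g, hg, hg'⟩ :=
        Pool.Agent.Results.MP_309968_ag.SexticDistance.result n hn
      exact ⟨g, hg, fun P _ hP x c M h1 h2 h3 h4 h5 h6 =>
        (hg' P hP).1 x c M h1 h2 h3 h4 (Or.inr ⟨h5, h6⟩)⟩
    · exact ⟨fun _ => 1, fun _ => one_ne_zero, fun P h => absurd h hn⟩
  choose g hg hg' using hs
  refine ⟨fun n k => f n k * g n k, fun n k => mul_ne_zero (hf n k) (hg n k),
    fun n P hP x c M h1 h2 h3 h4 h5 z hz => ?_, fun n P hn hP => hg' n P hn fun k hk =>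
      hP k (by rw [map_mul, hk, mul_zero])⟩
  have h6 := (hf' n P fun k hk => hP k (by rw [map_mul, hk, zero_mul])).1 x c M h1 h2 h3 h4 h5 z hz
  linarith

open Classical in
/-- The class of self-intersection zero. -/
theorem ray_of {f : ∀ n : ℕ, ℕ → MvPolynomial (Fin n × Fin 2) ℂ}
    (hf : ∀ (n : ℕ) (P : Fin n → Fin 2 → ℂ), VeryGeneral f P → ∀ (x : Fin n → ℝ) (c M : ℝ),
      (∀ i, 0 ≤ x i) → (∀ i, x i ≤ M) → ∑ i, x i ^ 2 = c ^ 2 → 12 * M ≤ c →
      (16 * (((Finset.univ.image x).erase 0).card : ℝ) + 8) * M ^ 2 ≤ c ^ 2 → Nef P c x)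
    {n : ℕ} {P : Fin n → Fin 2 → ℂ} (hP : VeryGeneral f P) {x : ℕ → ℝ} {a q B : ℝ}
    (hx : ∀ i, 0 ≤ x i) (ha : 1 ≤ a)
    (hc : q * n ≤ (((Finset.range n).filter fun i => 1 ≤ x i).card : ℝ)) (hB : 0 ≤ B)
    (hxB : ∀ i < n, a * x i ≤ B) (h1 : 144 * B ^ 2 ≤ q * n * (a ^ 2 / 4))
    (h2 : (16 * B + 8) * B ^ 2 ≤ q * n * (a ^ 2 / 4)) : NefRay P (mult x a n) := by
  have hS := sq_ge ha hc
  have hS0 : 0 ≤ ∑ i, mult x a n i ^ 2 := Finset.sum_nonneg fun i _ => sq_nonneg _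
  have hcard := card_le hB hxB
  refine hf n P hP _ _ B (fun i => Nat.cast_nonneg _) (fun i => ?_) (Real.sq_sqrt hS0).symm
    (Real.le_sqrt_of_sq_le ?_) ?_
  · exact (Nat.floor_le (mul_nonneg (by linarith) (hx i))).trans (hxB i i.2)
  · calc (12 * B) ^ 2 = 144 * B ^ 2 := by ring
      _ ≤ _ := h1.trans hS
  · rw [Real.sq_sqrt hS0]
    refine le_trans (mul_le_mul_of_nonneg_right ?_ (sq_nonneg B)) (h2.trans hS)
    refine add_le_add (mul_le_mul_of_nonneg_left ?_ (by norm_num)) le_rfl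
    convert hcard

open Classical in
/-- The classes of small positive self-intersection. -/
theorem nef_of {f : ∀ n : ℕ, ℕ → MvPolynomial (Fin n × Fin 2) ℂ}
    (hf : ∀ (n : ℕ) (P : Fin n → Fin 2 → ℂ), 4 ≤ n → VeryGeneral f P →
      ∀ (x : Fin n → ℝ) (c M : ℝ), 0 < M → (∀ i, 0 ≤ x i) → (∀ i, x i ≤ M) →
      (∀ i j k, i ≠ j → i ≠ k → j ≠ k → x i + x j + x k ≤ c) →
      24 * M ≤ c → 700 * M ^ 6 ≤ c ^ 4 * (c ^ 2 - ∑ i, x i ^ 2) → Nef P c x)
    {n : ℕ} (hn : 4 ≤ n) {P : Fin n → Fin 2 → ℂ} (hP : VeryGeneral f P) {x : ℕ → ℝ}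
    {q M η c : ℝ} (hq : 0 ≤ q) (hx : ∀ i, 0 ≤ x i)
    (hc : q * n ≤ (((Finset.range n).filter fun i => 1 ≤ x i).card : ℝ)) (hM : 0 < M)
    (hxM : ∀ i < n, x i ≤ M) (hη : 0 ≤ η) (h1 : 576 * M ^ 2 ≤ q * n)
    (h2 : 700 * M ^ 6 ≤ (q * n) ^ 2 * η) (hc0 : 0 ≤ c)
    (hc2 : ∑ i : Fin n, x i ^ 2 + η ≤ c ^ 2) : Nef P c fun i : Fin n => x i := by
  have hS := sq_ge' hc
  have h3 : q * n ≤ c ^ 2 := by linarith
  have h4 : 24 * M ≤ c := by
    refine (pow_le_pow_iff_left₀ (by positivity) hc0 two_ne_zero).1 ?_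
    calc (24 * M) ^ 2 = 576 * M ^ 2 := by ring
      _ ≤ _ := h1.trans h3
  refine hf n P hn hP _ c M hM (fun i => hx i) (fun i => hxM i i.2) (fun i j k _ _ _ => ?_) h4 ?_
  · have h5 := hxM i i.2
    have h6 := hxM j j.2
    have h7 := hxM k k.2
    linarith
  · refine h2.trans ?_
    have h8 : (q * n) ^ 2 ≤ c ^ 4 := by
      calc (q * n) ^ 2 ≤ (c ^ 2) ^ 2 := pow_le_pow_left₀ (by positivity) h3 2
        _ = c ^ 4 := by ring
    exact mul_le_mul h8 (by linarith) hη (by positivity)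

/-- **Random nef rays.** Let `X 0, X 1, …` be pairwise independent and identically distributed
nonnegative random variables with `P (X ≥ 1) > 0`. -/
theorem result : (∃ f : ∀ n : ℕ, ℕ → MvPolynomial (Fin n × Fin 2) ℂ, (∀ n k, f n k ≠ 0) ∧
    ∀ {Ω : Type} [MeasureSpace Ω] [IsProbabilityMeasure (ℙ : Measure Ω)] (X : ℕ → Ω → ℝ),
      (∀ i, Measurable (X i)) → (∀ i ω, 0 ≤ X i ω) →
      (Pairwise fun i j => IndepFun (X i) (X j)) → (∀ i, IdentDistrib (X i) (X 0)) →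
      ℙ {ω | 1 ≤ X 0 ω} ≠ 0 →
      -- (1) classes of self-intersection zero
      (∀ p : ℝ, 3 ≤ p → Integrable (fun ω => X 0 ω ^ p) → ∀ᵐ ω, ∀ C : ℝ, ∀ᶠ n : ℕ in atTop,
        ∀ P : Fin n → Fin 2 → ℂ, VeryGeneral f P → ∀ a : ℝ, 1 ≤ a →
          a ≤ C * (n : ℝ) ^ (1 - 3 / p) → NefRay P (mult (fun i => X i ω) a n)) ∧
      -- (2) classes of small positive self-intersection
      (∀ p : ℝ, 2 ≤ p → Integrable (fun ω => X 0 ω ^ p) → ∀ᵐ ω, ∀ ε : ℝ, 0 < ε →
        ∀ᶠ n : ℕ in atTop, ∀ P : Fin n → Fin 2 → ℂ, VeryGeneral f P → ∀ c : ℝ, 0 ≤ c →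
          ∑ i : Fin n, X i ω ^ 2 + ε * (n : ℝ) ^ (6 / p - 2) ≤ c ^ 2 →
            Nef P c fun i : Fin n => X i ω) ∧
      -- (3) bounded random variables
      (∀ K : ℝ, (∀ i ω, X i ω ≤ K) → ∃ κ : ℝ, 0 < κ ∧ ∀ᵐ ω, ∀ᶠ n : ℕ in atTop,
        ∀ P : Fin n → Fin 2 → ℂ, VeryGeneral f P →
          (∀ a : ℝ, 1 ≤ a → a ≤ κ * n → NefRay P (mult (fun i => X i ω) a n)) ∧
          ∀ c : ℝ, 0 ≤ c → ∑ i : Fin n, X i ω ^ 2 + 1 / (κ * (n : ℝ) ^ 2) ≤ c ^ 2 →
            Nef P c fun i : Fin n => X i ω)) ∧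
    -- (4) the inequality for irreducible curves
    ∀ (n : ℕ) (P : Fin n → Fin 2 → ℂ) (x : Fin n → ℝ), NefRay P x →
      ∀ (F : MvPolynomial (Fin 3) ℂ) (d : ℕ) (m : Fin n → ℕ), F.IsHomogeneous d →
        Irreducible F → (∀ i, MultGE (P i) F (m i) ∧ ¬ MultGE (P i) F (m i + 1)) →
        ∑ i, x i * m i ≤ √(∑ i, x i ^ 2) * d ∧
          ∀ t : ℝ, 0 ≤ t → (∀ i, (m i : ℝ) = t * x i) → ∑ i, m i ^ 2 ≤ d ^ 2 := by
  obtain ⟨f, hf, hf1, hf2⟩ := exists_f
  refine ⟨⟨f, hf, fun {Ω} _ _ X hm h0 hind hid hpos => ?_⟩, fun n P x hx F d m hF hI hm => ?_⟩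
  swap
  · have hz : (((d : ℝ), fun i => (m i : ℝ)) : ℝ × (Fin n → ℝ)) ∈ curvCone P :=
      subset_closure (Submodule.subset_span (Or.inl ⟨F, d, m, hF, hI, hm, rfl⟩))
    have h1 : 0 ≤ √(∑ i, x i ^ 2) * (d : ℝ) - ∑ i, x i * (m i : ℝ) := hx _ hz
    have h2 : ∑ i, x i * (m i : ℝ) ≤ √(∑ i, x i ^ 2) * d := by linarith
    refine ⟨h2, fun t ht0 ht => ?_⟩
    have h0 : 0 ≤ ∑ i, x i ^ 2 := Finset.sum_nonneg fun i _ => sq_nonneg _
    obtain ⟨c, hc⟩ : ∃ c, c = √(∑ i, x i ^ 2) := ⟨_, rfl⟩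
    have hc0 : 0 ≤ c := by rw [hc]; exact Real.sqrt_nonneg _
    have hc2 : c ^ 2 = ∑ i, x i ^ 2 := by rw [hc]; exact Real.sq_sqrt h0
    rw [← hc] at h2
    have h3 : ∑ i, x i * (m i : ℝ) = t * c ^ 2 := by
      rw [hc2, Finset.mul_sum]
      exact Finset.sum_congr rfl fun i _ => by rw [ht]; ring
    have h4 : ∑ i, (m i : ℝ) ^ 2 = t ^ 2 * c ^ 2 := by
      rw [hc2, Finset.mul_sum]
      exact Finset.sum_congr rfl fun i _ => by rw [ht]; ring
    rw [h3] at h2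
    have h5 : ∑ i, (m i : ℝ) ^ 2 ≤ (d : ℝ) ^ 2 := by
      rw [h4]
      rcases eq_or_lt_of_le hc0 with h6 | h6
      · rw [← h6]
        nlinarith [sq_nonneg (d : ℝ)]
      · have h7 : t * c ≤ d := by
          refine le_of_mul_le_mul_left ?_ h6
          calc c * (t * c) = t * c ^ 2 := by ring
            _ ≤ c * d := h2
        calc t ^ 2 * c ^ 2 = (t * c) ^ 2 := by ring
          _ ≤ (d : ℝ) ^ 2 := pow_le_pow_left₀ (by positivity) h7 2
    exact_mod_cast h5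
  obtain ⟨q, hq, hcount⟩ := Pool.Agent.V5helper94.AC.ae_count hm hind hid hpos
  refine ⟨fun p hp hint => ?_, fun p hp hint => ?_, fun K hK => ?_⟩
  · have hmax := Pool.Agent.V5helper94.AC.ae_max (by linarith) h0 hid hint
    filter_upwards [hcount, hmax] with ω h1 h2 C
    obtain ⟨A, hA⟩ : ∃ A, A = 64 * max C 1 + 608 := ⟨_, rfl⟩
    have hC1 : (1 : ℝ) ≤ max C 1 := le_max_right _ _
    have hA0 : 0 < A := by linarith
    obtain ⟨δ, hδ⟩ : ∃ δ, δ = min 1 (q / A) := ⟨_, rfl⟩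
    have hδ0 : 0 < δ := by rw [hδ]; exact lt_min one_pos (div_pos hq hA0)
    have hδ1 : δ ≤ 1 := by rw [hδ]; exact min_le_left _ _
    have hδA : δ * A ≤ q := by
      rw [← le_div_iff₀ hA0, hδ]
      exact min_le_right _ _
    filter_upwards [h1, h2 δ hδ0, eventually_ge_atTop 1] with n hn1 hn2 hn0 P hP a ha haC
    have hn : (1 : ℝ) ≤ n := by exact_mod_cast hn0
    have hnp : (0 : ℝ) < n := by linarith
    obtain ⟨y, hy⟩ : ∃ y, y = (n : ℝ) ^ (1 / p) := ⟨_, rfl⟩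
    have hy0 : 0 < y := by rw [hy]; exact Real.rpow_pos_of_pos hnp _
    have hy2 : y ^ 2 ≤ n := by
      rw [hy, ← Real.rpow_natCast, ← Real.rpow_mul hnp.le]
      refine (Real.rpow_le_rpow_of_exponent_le hn ?_).trans (Real.rpow_one _).le
      rw [Nat.cast_ofNat, div_mul_eq_mul_div, one_mul, div_le_one (by linarith)]
      linarith
    have hy3 : y ^ 3 * (n : ℝ) ^ (1 - 3 / p) = n := by
      rw [hy, ← Real.rpow_natCast, ← Real.rpow_mul hnp.le, ← Real.rpow_add hnp]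
      have : 1 / p * ((3 : ℕ) : ℝ) + (1 - 3 / p) = 1 := by
        push_cast
        ring
      rw [this, Real.rpow_one]
    have hay : a * y ^ 3 ≤ max C 1 * n := by
      have h3 : a ≤ max C 1 * (n : ℝ) ^ (1 - 3 / p) :=
        haC.trans (mul_le_mul_of_nonneg_right (le_max_left _ _)
          (Real.rpow_nonneg hnp.le _))
      calc a * y ^ 3 ≤ max C 1 * (n : ℝ) ^ (1 - 3 / p) * y ^ 3 :=
            mul_le_mul_of_nonneg_right h3 (by positivity)
        _ = max C 1 * (y ^ 3 * (n : ℝ) ^ (1 - 3 / p)) := by ring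
        _ = max C 1 * n := by rw [hy3]
    have ha0 : 0 < a := by linarith
    have hd2 : δ ^ 2 * A ≤ q := by
      refine le_trans (mul_le_mul_of_nonneg_right ?_ hA0.le) hδA
      nlinarith
    have hd2' : δ ^ 2 * A * n ≤ q * n := mul_le_mul_of_nonneg_right hd2 hnp.le
    have e1 : δ ^ 2 * y ^ 2 ≤ δ ^ 2 * n := mul_le_mul_of_nonneg_left hy2 (sq_nonneg δ)
    have e2 : δ ^ 3 * (a * y ^ 3) ≤ δ ^ 2 * (max C 1 * n) := by
      refine mul_le_mul ?_ hay (by positivity) (sq_nonneg δ)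
      nlinarith [sq_nonneg δ]
    have e3 : 0 ≤ δ ^ 2 * (max C 1 * n) := by positivity
    have e4 : 0 ≤ δ ^ 2 * n := by positivity
    rw [hA] at hd2'
    refine ray_of hf1 hP (B := a * (δ * y)) (fun i => h0 i ω) ha hn1 (by positivity)
      (fun i hi => mul_le_mul_of_nonneg_left (by rw [hy]; exact hn2 i hi) ha0.le) ?_ ?_
    · have e5 : 576 * (δ ^ 2 * y ^ 2) ≤ q * n := by nlinarith
      have e6 := mul_le_mul_of_nonneg_right e5 (by positivity : (0 : ℝ) ≤ a ^ 2 / 4)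
      calc 144 * (a * (δ * y)) ^ 2 = 576 * (δ ^ 2 * y ^ 2) * (a ^ 2 / 4) := by ring
        _ ≤ _ := e6
    · have e5 : 64 * (δ ^ 3 * (a * y ^ 3)) + 32 * (δ ^ 2 * y ^ 2) ≤ q * n := by nlinarith
      have e6 := mul_le_mul_of_nonneg_right e5 (by positivity : (0 : ℝ) ≤ a ^ 2 / 4)
      calc (16 * (a * (δ * y)) + 8) * (a * (δ * y)) ^ 2 =
          (64 * (δ ^ 3 * (a * y ^ 3)) + 32 * (δ ^ 2 * y ^ 2)) * (a ^ 2 / 4) := by ring
        _ ≤ _ := e6
  · have hmax := Pool.Agent.V5helper94.AC.ae_max (by linarith) h0 hid hint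
    filter_upwards [hcount, hmax] with ω h1 h2 ε hε
    obtain ⟨δ, hδ⟩ : ∃ δ, δ = min 1 (min (q / 576) (ε * q ^ 2 / 700)) := ⟨_, rfl⟩
    have hδ0 : 0 < δ := by
      rw [hδ]
      exact lt_min one_pos (lt_min (by positivity) (by positivity))
    have hδ1 : δ ≤ 1 := by rw [hδ]; exact min_le_left _ _
    have hδ2 : δ * 576 ≤ q := by
      rw [← le_div_iff₀ (by norm_num), hδ]
      exact (min_le_right _ _).trans (min_le_left _ _)
    have hδ3 : δ * 700 ≤ ε * q ^ 2 := by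
      rw [← le_div_iff₀ (by norm_num), hδ]
      exact (min_le_right _ _).trans (min_le_right _ _)
    filter_upwards [h1, h2 δ hδ0, eventually_ge_atTop 4] with n hn1 hn2 hn0 P hP c hc hc2
    have hn : (1 : ℝ) ≤ n := by exact_mod_cast (by omega : 1 ≤ n)
    have hnp : (0 : ℝ) < n := by linarith
    obtain ⟨y, hy⟩ : ∃ y, y = (n : ℝ) ^ (1 / p) := ⟨_, rfl⟩
    have hy0 : 0 < y := by rw [hy]; exact Real.rpow_pos_of_pos hnp _
    have hy2 : y ^ 2 ≤ n := by
      rw [hy, ← Real.rpow_natCast, ← Real.rpow_mul hnp.le]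
      refine (Real.rpow_le_rpow_of_exponent_le hn ?_).trans (Real.rpow_one _).le
      rw [Nat.cast_ofNat, div_mul_eq_mul_div, one_mul, div_le_one (by linarith)]
      exact hp
    have hy6 : (n : ℝ) ^ 2 * (n : ℝ) ^ (6 / p - 2) = y ^ 6 := by
      rw [hy, ← Real.rpow_natCast, ← Real.rpow_natCast, ← Real.rpow_mul hnp.le,
        ← Real.rpow_add hnp]
      congr 1
      push_cast
      ring
    have hd2 : δ ^ 2 ≤ δ := by nlinarith
    have hd6 : δ ^ 6 ≤ δ := by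
      calc δ ^ 6 = δ * δ ^ 5 := by ring
        _ ≤ δ * 1 := mul_le_mul_of_nonneg_left (pow_le_one₀ hδ0.le hδ1) hδ0.le
        _ = δ := mul_one δ
    refine nef_of hf2 hn0 hP (M := δ * y) (η := ε * (n : ℝ) ^ (6 / p - 2)) hq.le
      (fun i => h0 i ω) hn1 (by positivity) (fun i hi => by rw [hy]; exact hn2 i hi)
      (by positivity) ?_ ?_ hc hc2
    · calc 576 * (δ * y) ^ 2 = δ ^ 2 * 576 * y ^ 2 := by ring
        _ ≤ δ * 576 * y ^ 2 := by
            refine mul_le_mul_of_nonneg_right ?_ (sq_nonneg y)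
            linarith
        _ ≤ q * n := mul_le_mul hδ2 hy2 (sq_nonneg y) hq.le
    · calc 700 * (δ * y) ^ 6 = δ ^ 6 * 700 * y ^ 6 := by ring
        _ ≤ ε * q ^ 2 * y ^ 6 := by
            refine mul_le_mul_of_nonneg_right ?_ (by positivity)
            linarith
        _ = (q * n) ^ 2 * (ε * (n : ℝ) ^ (6 / p - 2)) := by
            rw [← hy6]
            ring
  · obtain ⟨L, hL⟩ : ∃ L, L = max K 1 := ⟨_, rfl⟩
    have hL1 : 1 ≤ L := by rw [hL]; exact le_max_right _ _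
    have hLK : K ≤ L := by rw [hL]; exact le_max_left _ _
    have hL0 : 0 < L := by linarith
    obtain ⟨κ, hκ⟩ : ∃ κ, κ = min (q / (128 * L ^ 3)) (q ^ 2 / (700 * L ^ 6)) := ⟨_, rfl⟩
    have hκ0 : 0 < κ := by
      rw [hκ]
      exact lt_min (by positivity) (by positivity)
    have hκ1 : κ * (128 * L ^ 3) ≤ q := by
      rw [← le_div_iff₀ (by positivity), hκ]
      exact min_le_left _ _
    have hκ2 : κ * (700 * L ^ 6) ≤ q ^ 2 := by
      rw [← le_div_iff₀ (by positivity), hκ]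
      exact min_le_right _ _
    refine ⟨κ, hκ0, ?_⟩
    filter_upwards [hcount] with ω h1
    have hbig : ∀ᶠ n : ℕ in atTop, 576 * L ^ 2 ≤ q * n :=
      (tendsto_natCast_atTop_atTop.const_mul_atTop hq).eventually (eventually_ge_atTop _)
    filter_upwards [h1, hbig, eventually_ge_atTop 4] with n hn1 hn2 hn0 P hP
    have hnp : (0 : ℝ) < n := by exact_mod_cast (by omega : 0 < n)
    refine ⟨fun a ha haκ => ?_, fun c hc hc2 => ?_⟩
    · have ha0 : 0 < a := by linarith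
      refine ray_of hf1 hP (B := a * L) (fun i => h0 i ω) ha hn1 (by positivity)
        (fun i hi => mul_le_mul_of_nonneg_left ((hK i ω).trans hLK) ha0.le) ?_ ?_
      · have e6 := mul_le_mul_of_nonneg_right hn2 (by positivity : (0 : ℝ) ≤ a ^ 2 / 4)
        calc 144 * (a * L) ^ 2 = 576 * L ^ 2 * (a ^ 2 / 4) := by ring
          _ ≤ _ := e6
      · have e4 : a * (128 * L ^ 3) ≤ q * n := by
          calc a * (128 * L ^ 3) ≤ κ * n * (128 * L ^ 3) :=
                mul_le_mul_of_nonneg_right haκ (by positivity)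
            _ = κ * (128 * L ^ 3) * n := by ring
            _ ≤ q * n := mul_le_mul_of_nonneg_right hκ1 hnp.le
        have e5 : 64 * (a * L ^ 3) + 32 * L ^ 2 ≤ q * n := by nlinarith [sq_nonneg L]
        have e6 := mul_le_mul_of_nonneg_right e5 (by positivity : (0 : ℝ) ≤ a ^ 2 / 4)
        calc (16 * (a * L) + 8) * (a * L) ^ 2 =
            (64 * (a * L ^ 3) + 32 * L ^ 2) * (a ^ 2 / 4) := by ring
          _ ≤ _ := e6
    · refine nef_of hf2 hn0 hP (M := L) (η := 1 / (κ * (n : ℝ) ^ 2)) hq.le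
        (fun i => h0 i ω) hn1 hL0 (fun i hi => (hK i ω).trans hLK)
        (by positivity) hn2 ?_ hc hc2
      have e1 : (q * n) ^ 2 * (1 / (κ * (n : ℝ) ^ 2)) = q ^ 2 / κ := by
        field_simp
      rw [e1, le_div_iff₀ hκ0]
      linarith

end Pool.Agent.Results.MP_3c72fe_ag.RandomRays
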